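import Pool.Agent.H83.AR.Targets
import Pool.Agent.H83.LS.PIECE

/-!
Module PI of the board br_modules (MP_ee74d2_an): one piece, localized data.
-/

set_option autoImplicit false

namespace Pool.Agent.H47.BR

open MeasureTheory Set FourierTransform Filter
open Pool.Agent.H83.AR Pool.Agent.H93.AR Pool.Agent.H83.LS
open Pool.Agent.H14.LS (mj mj_meas mj_meas' mj_int mj_le mT_norm bcd_int bcd_nonneg fourier_meas' MM_meas)
open scoped ENNReal NNReal

variable {n : ℕ}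

lemma ind_eq (R : Set ℝ) [DecidablePred (· ∈ R)] (f : EE (n + 1) → ℂ) :
    PIEm.cutR R f = fun x => (fun (h _ : ℝ) => if h ∈ R then (1 : ℂ) else 0) (hor x)
      (x (Fin.last n)) * f x := by
  funext x
  unfold PIEm.cutR
  by_cases h : hor x ∈ R
  · rw [indicator_of_mem (show x ∈ {x | hor x ∈ R} from h)]
    simp [h]
  · rw [indicator_of_notMem (show x ∉ {x | hor x ∈ R} from h)]
    simp [h]

lemma AL_cut (hAM : T_AM) (hn : 1 ≤ n) {L : ℝ} (hL : 1 ≤ L) (R : Set ℝ) (f : EE (n + 1) → ℂ) :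
    AL L (PIEm.cutR R f) = PIEm.cutR R (AL L f) := by
  classical
  obtain ⟨-, -, -, -, h5, -⟩ := hAM n L hn hL
  rw [ind_eq R f, ind_eq R (AL L f)]
  funext x
  exact h5 f (fun h _ => if h ∈ R then 1 else 0) x

lemma AL_bcd (hAM : T_AM) (hn : 1 ≤ n) {L A : ℝ} (hL : 1 ≤ L) {f : EE (n + 1) → ℂ}
    (hf : BCd A f) : BCd A (AL L f) := by
  classical
  obtain ⟨h1, h2, -, -, h5, -⟩ := hAM n L hn hL
  obtain ⟨f1, f2, R, f3⟩ := hf
  refine ⟨h1 f f1, h2 f A f1 f2, |R|, fun x hx => ?_⟩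
  set c : ℝ → ℝ → ℂ := fun h z => if R ^ 2 < h ^ 2 + z ^ 2 then 1 else 0 with hc
  have h6 : (fun x : EE (n + 1) => c (hor x) (x (Fin.last n)) * f x) = fun _ => 0 := by
    funext y
    by_cases hy : R ^ 2 < hor y ^ 2 + y (Fin.last n) ^ 2
    · have h7 : f y = 0 := by
        apply f3
        rw [← Pool.Agent.H54.LS.norm_sq_eq] at hy
        exact lt_of_pow_lt_pow_left₀ 2 (norm_nonneg y) hy
      rw [h7, mul_zero]
    · simp only [hc]
      rw [if_neg hy, zero_mul]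
  have h7 := h5 f c x
  rw [h6] at h7
  have h8 : AL L (fun _ : EE (n + 1) => (0 : ℂ)) x = 0 := by
    unfold AL
    simp
  rw [h8] at h7
  have h9 : c (hor x) (x (Fin.last n)) = 1 := by
    simp only [hc]
    rw [if_pos]
    rw [← Pool.Agent.H54.LS.norm_sq_eq, ← sq_abs R]
    exact pow_lt_pow_left₀ hx (abs_nonneg R) (by norm_num)
  rw [h9, one_mul] at h7
  exact h7.symm

lemma AL_l2 (hAM : T_AM) (hn : 1 ≤ n) {L : ℝ} (hL : 1 ≤ L) {f : EE (n + 1) → ℂ}
    (hf : Measurable f) : ∫⁻ x, ‖AL L f x‖ₑ ^ 2 ≤ ∫⁻ x, ‖f x‖ₑ ^ 2 := by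
  obtain ⟨-, -, h3, -, -, -⟩ := hAM n L hn hL
  have h := h3 f 2 hf (by norm_num)
  simpa only [ENNReal.rpow_two] using h

lemma MM_l2 (hPLE : T_PLE) {lam Lam t A : ℝ} (hl : 0 < lam) {g : EE (n + 1) → ℂ}
    (hg : BCd A g) : ∫⁻ x, ‖MM (mj n lam Lam t) g x‖ₑ ^ 2 ≤ ∫⁻ x, ‖g x‖ₑ ^ 2 :=
  (hPLE (n + 1) (mj n lam Lam t) g (mj_meas' n lam Lam t)
    (fun ξ => (mj_le n lam Lam t ξ).trans (mT_norm lam t ξ)) (mj_int n hl Lam t) (bcd_int hg)
    ⟨A, hg.2.1⟩ hg.1).2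

lemma pow_split_on {d : ℕ} {p D : ℝ} (hp : 2 < p) (hD : 0 ≤ D) {g : EE d → ℂ} (S : Set (EE d))
    (hg : ∀ x, ‖g x‖ ≤ D) :
    ∫⁻ x in S, ‖g x‖ₑ ^ p ≤ ENNReal.ofReal (D ^ (p - 2)) * ∫⁻ x in S, ‖g x‖ₑ ^ 2 := by
  rw [← lintegral_const_mul' _ _ ENNReal.ofReal_ne_top]
  refine lintegral_mono fun x => ?_
  have h1 : ‖g x‖ₑ ^ p = ‖g x‖ₑ ^ (p - 2) * ‖g x‖ₑ ^ 2 := by
    rw [← ENNReal.rpow_natCast, ← ENNReal.rpow_add_of_nonneg _ _ (by linarith) (by norm_num)]
    congr 1; push_cast; ring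
  rw [h1]
  gcongr
  rw [← ENNReal.ofReal_rpow_of_nonneg hD (by linarith), ← ofReal_norm]
  exact ENNReal.rpow_le_rpow (ENNReal.ofReal_le_ofReal (hg x)) (by linarith)

/-- powers -/
lemma pow_le {n : ℕ} {p C A Y q : ℝ} (hn : 2 ≤ n) (hp : 2 < p) (hpn : p ≤ 2 + 2 / (n : ℝ))
    (hC : 0 ≤ C) (hA : 0 ≤ A) (hY : 1 ≤ Y) (hq : 0 ≤ q) (hqY : q ≤ Y) :
    (C * q ^ ((n : ℝ) / 2) * A) ^ (p - 2) ≤ C ^ (p - 2) * Y * A ^ (p - 2) := by
  have hn0 : (0 : ℝ) < n := by
    have : 0 < n := by omega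
    exact_mod_cast this
  have hnp : (n : ℝ) / 2 * (p - 2) ≤ 1 := by
    have h1 : p - 2 ≤ 2 / n := by linarith
    calc (n : ℝ) / 2 * (p - 2) ≤ (n : ℝ) / 2 * (2 / n) := by gcongr
      _ = 1 := by field_simp
  have hnp0 : 0 ≤ (n : ℝ) / 2 * (p - 2) := by
    have : 0 ≤ p - 2 := by linarith
    positivity
  rw [Real.mul_rpow (by positivity) hA, Real.mul_rpow hC (by positivity), ← Real.rpow_mul hq]
  have h2 : q ^ ((n : ℝ) / 2 * (p - 2)) ≤ Y := by
    calc q ^ ((n : ℝ) / 2 * (p - 2)) ≤ Y ^ ((n : ℝ) / 2 * (p - 2)) :=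
          Real.rpow_le_rpow hq hqY hnp0
      _ ≤ Y ^ (1 : ℝ) := Real.rpow_le_rpow_of_exponent_le hY hnp
      _ = Y := Real.rpow_one Y
  gcongr

/-- bound by a sup bound -/
lemma sup_piece (hPLE : T_PLE) {p lam Lam A D : ℝ} (hp : 2 < p) (hl : 0 < lam)
    {g : EE (n + 1) → ℂ} (hg : BCd A g) (hD : 0 ≤ D)
    (hs : ∀ t ∈ Icc (1 : ℝ) 2, ∀ x, ‖MM (mj n lam Lam t) g x‖ ≤ D) (S : Set (EE (n + 1))) :
    ∫⁻ t in Icc (1 : ℝ) 2, ∫⁻ x in S, ‖MM (mj n lam Lam t) g x‖ₑ ^ p ≤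
      ENNReal.ofReal (D ^ (p - 2)) * ∫⁻ x, ‖g x‖ₑ ^ 2 := by
  calc ∫⁻ t in Icc (1 : ℝ) 2, ∫⁻ x in S, ‖MM (mj n lam Lam t) g x‖ₑ ^ p
      ≤ ∫⁻ t in Icc (1 : ℝ) 2, ENNReal.ofReal (D ^ (p - 2)) * ∫⁻ x, ‖g x‖ₑ ^ 2 := by
        apply setLIntegral_mono' measurableSet_Icc
        intro t ht
        refine (pow_split_on hp hD S (hs t ht)).trans (mul_le_mul_right ?_ _)
        exact (setLIntegral_le_lintegral _ _).trans (MM_l2 hPLE hl hg)
    _ = _ := by
        rw [setLIntegral_const, Real.volume_Icc]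
        norm_num

lemma meas_MMp {lam Lam A p : ℝ} {g : EE (n + 1) → ℂ} (hg : BCd A g) :
    Measurable fun q : ℝ × EE (n + 1) => ‖MM (mj n lam Lam q.1) g q.2‖ₑ ^ p :=
  (MM_meas (mj_meas n lam Lam) (fourier_meas' (bcd_int hg))).enorm.pow_const _

theorem pf_pi (hPG : T_PG) (hSU : T_SU) (hSV : T_SV) (hTE : T_TE) (hAM : T_AM) (hPLE : T_PLE) :
    T_PI := by
  classical
  intro n p η hn hp hpn hη
  have hn1 : 1 ≤ n := by omega
  obtain ⟨C1, hC1⟩ := hPG n p η hn hp hpn hη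
  obtain ⟨C2, hC20, hC2⟩ := hSU n hn
  obtain ⟨C3, hC30, hC3⟩ := hSV n hn
  obtain ⟨C4, hC4⟩ := hTE n hn
  have h2p : 0 ≤ (2 : ℝ) ^ (p - 1) := by positivity
  set Ka : ℝ≥0 := Real.toNNReal (2 * C2 ^ (p - 2)) with hKa
  set Kb : ℝ≥0 := Real.toNNReal (C3 ^ (p - 2)) with hKb
  set Kg : ℝ≥0 := Real.toNNReal (2 * C2 ^ (p - 2)) * C4 with hKg
  set K2 : ℝ≥0 := Real.toNNReal (2 ^ (p - 1)) with hK2
  refine ⟨Ka + C1 + K2 * (Kb + (Kg + C1)), ?_⟩
  intro lam Lam L A f hlam hLam hLl hL hf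
  have hA : 0 ≤ A := bcd_nonneg hf
  have hA' : 0 ≤ A ^ (p - 2) := by positivity
  have hlam0 : 0 < lam := by linarith
  have hLam0 : 0 < Lam := by linarith
  have hlη : 1 ≤ lam ^ η := Real.one_le_rpow hlam hη.le
  have hL2 : 1 ≤ L ^ 2 := one_le_pow₀ hL
  set X : ℝ := Lam ^ 2 / lam with hX
  have hX0 : 0 < X := by positivity
  set I : ℝ≥0∞ := ∫⁻ x, ‖f x‖ₑ ^ 2 with hI
  set Q : ℝ := L ^ 2 * lam ^ η * A ^ (p - 2) with hQ
  have hTf : BCd A (AL L (AL L f)) := AL_bcd hAM hn1 hL (AL_bcd hAM hn1 hL hf)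
  have hl2 : ∀ u : EE (n + 1) → ℂ, BCd A u → ∫⁻ x, ‖AL L (AL L u) x‖ₑ ^ 2 ≤ ∫⁻ x, ‖u x‖ₑ ^ 2 :=
    fun u hu => (AL_l2 hAM hn1 hL (AL_bcd hAM hn1 hL hu).1).trans (AL_l2 hAM hn1 hL hu.1)
  have conv : ∀ (k c : ℝ) (J : ℝ≥0∞), 0 ≤ k → J ≤ I → c ≤ k * (L ^ 2 * A ^ (p - 2)) →
      ENNReal.ofReal c * J ≤ (Real.toNNReal k : ℝ≥0∞) * ENNReal.ofReal Q * I := by
    intro k c J hk hJ hc
    have h1 : c ≤ k * Q := by
      refine hc.trans (mul_le_mul_of_nonneg_left ?_ hk)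
      rw [hQ]
      have h2 : 0 ≤ L ^ 2 * A ^ (p - 2) := by positivity
      nlinarith [mul_le_mul_of_nonneg_left hlη h2]
    calc ENNReal.ofReal c * J ≤ ENNReal.ofReal (k * Q) * I := by gcongr
      _ = _ := by rw [ENNReal.ofReal_mul hk]; rfl
  have conv1 : (C1 : ℝ≥0∞) * ENNReal.ofReal (lam ^ η * A ^ (p - 2)) ≤
      (C1 : ℝ≥0∞) * ENNReal.ofReal Q := by
    gcongr
    rw [hQ]
    have h2 : 0 ≤ lam ^ η * A ^ (p - 2) := by positivity
    nlinarith [mul_le_mul_of_nonneg_right hL2 h2]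
  -- case (a)
  have caseA : X ≤ L ^ 2 → ∀ S : Set (EE (n + 1)),
      ∫⁻ t in Icc (1 : ℝ) 2, ∫⁻ x in S, ‖MM (mj n lam Lam t) (AL L (AL L f)) x‖ₑ ^ p ≤
        (Ka : ℝ≥0∞) * ENNReal.ofReal Q * I := by
    intro hXL S
    have h1 := sup_piece hPLE (p := p) (Lam := Lam) hp hlam0 hTf
      (D := C2 * (1 + X) ^ ((n : ℝ) / 2) * A) (by positivity)
      (fun t ht x => hC2 lam Lam t A _ hlam hLam hLl ht hTf x) S
    refine h1.trans (conv _ _ _ (by positivity) (hl2 f hf) ?_)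
    refine (pow_le (Y := 2 * L ^ 2) hn hp hpn hC20 hA (by linarith) (by positivity)
      (by linarith)).trans (le_of_eq ?_)
    ring
  have hKsum1 : (Ka : ℝ≥0∞) * ENNReal.ofReal Q * I ≤
      ((Ka + C1 + K2 * (Kb + (Kg + C1)) : ℝ≥0) : ℝ≥0∞) * ENNReal.ofReal Q * I := by
    gcongr
    exact_mod_cast (le_self_add.trans le_self_add : Ka ≤ Ka + C1 + K2 * (Kb + (Kg + C1)))
  have hKsum2 : (C1 : ℝ≥0∞) * ENNReal.ofReal Q * I ≤
      ((Ka + C1 + K2 * (Kb + (Kg + C1)) : ℝ≥0) : ℝ≥0∞) * ENNReal.ofReal Q * I := by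
    gcongr
    exact_mod_cast (le_add_self.trans le_self_add : C1 ≤ Ka + C1 + K2 * (Kb + (Kg + C1)))
  by_cases hXL : X ≤ L ^ 2
  · refine ⟨fun _ => ?_, fun i _ _ => (caseA hXL _).trans hKsum1⟩
    have h1 := caseA hXL univ
    simp only [Measure.restrict_univ] at h1
    exact h1.trans hKsum1
  push Not at hXL
  have hX4 : X ≤ 4 * Lam := by
    rw [hX, div_le_iff₀ hlam0]
    nlinarith
  have hL8 : L ^ 2 ≤ 8 * Lam := by linarith
  constructor
  · intro hsupp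
    set R0 : Set ℝ := {h | Lam * h < L ^ 2} with hR0
    set R1 : Set ℝ := {h | L ^ 2 ≤ Lam * h} with hR1
    have hR0m : MeasurableSet R0 := measurableSet_lt (by fun_prop) (by fun_prop)
    have hR1m : MeasurableSet R1 := measurableSet_le (by fun_prop) (by fun_prop)
    set fb := PIEm.cutR R0 f with hfb
    set fg := PIEm.cutR R1 f with hfg
    have hfbB : BCd A fb := PIEm.cut_bcd hR0m hf
    have hfgB : BCd A fg := PIEm.cut_bcd hR1m hf
    have hTb : BCd A (AL L (AL L fb)) := AL_bcd hAM hn1 hL (AL_bcd hAM hn1 hL hfbB)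
    have hTg : BCd A (AL L (AL L fg)) := AL_bcd hAM hn1 hL (AL_bcd hAM hn1 hL hfgB)
    have ecut : ∀ R : Set ℝ, AL L (AL L (PIEm.cutR R f)) = PIEm.cutR R (AL L (AL L f)) := by
      intro R
      rw [AL_cut hAM hn1 hL, AL_cut hAM hn1 hL]
    have cutle : ∀ R : Set ℝ, ∫⁻ x, ‖PIEm.cutR R f x‖ₑ ^ 2 ≤ I := by
      intro R
      refine lintegral_mono fun x => ?_
      unfold PIEm.cutR
      by_cases h : x ∈ {x : EE (n + 1) | hor x ∈ R}
      · rw [indicator_of_mem h]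
      · rw [indicator_of_notMem h]
        simp
    have hsplit : ∀ t x, ‖MM (mj n lam Lam t) (AL L (AL L f)) x‖ₑ ^ p ≤
        (K2 : ℝ≥0∞) * (‖MM (mj n lam Lam t) (AL L (AL L fb)) x‖ₑ ^ p +
          ‖MM (mj n lam Lam t) (AL L (AL L fg)) x‖ₑ ^ p) := by
      intro t x
      have h1 := PIEm.MM_sum (Lam := Lam) hlam0 t hTf 2
        (fun j => if j = 0 then R0 else R1) (fun j => by
          by_cases hj : j = 0
          · simp only [hj, if_true]; exact hR0m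
          · simp only [hj, if_false]; exact hR1m) (fun x => by
          rw [Finset.sum_range_succ, Finset.sum_range_one]
          simp only [if_true, one_ne_zero, if_false]
          unfold PIEm.cutR
          by_cases h : Lam * hor x < L ^ 2
          · rw [indicator_of_mem (show x ∈ {x | hor x ∈ R0} from h),
              indicator_of_notMem (show x ∉ {x | hor x ∈ R1} from not_le.2 h), add_zero]
          · rw [indicator_of_notMem (show x ∉ {x | hor x ∈ R0} from h),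
              indicator_of_mem (show x ∈ {x | hor x ∈ R1} from not_lt.1 h), zero_add]) x
      rw [Finset.sum_range_succ, Finset.sum_range_one] at h1
      simp only [if_true, one_ne_zero, if_false] at h1
      rw [← ecut R0, ← ecut R1] at h1
      rw [h1]
      refine (ENNReal.rpow_le_rpow (enorm_add_le _ _) (by linarith)).trans ?_
      refine (ENNReal.rpow_add_le_mul_rpow_add_rpow _ _ (by linarith)).trans (le_of_eq ?_)
      congr 1
      rw [hK2]
      show (2 : ℝ≥0∞) ^ (p - 1) = ENNReal.ofReal (2 ^ (p - 1))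
      rw [← ENNReal.ofReal_rpow_of_nonneg (by norm_num) (by linarith)]
      norm_num
    have hmb := meas_MMp (Lam := Lam) (lam := lam) (p := p) hTb
    have hmg := meas_MMp (Lam := Lam) (lam := lam) (p := p) hTg
    -- the bad part
    have hbad : ∫⁻ t in Icc (1 : ℝ) 2, ∫⁻ x, ‖MM (mj n lam Lam t) (AL L (AL L fb)) x‖ₑ ^ p ≤
        (Kb : ℝ≥0∞) * ENNReal.ofReal Q * I := by
      have hδ : L ^ 2 / Lam * Lam = L ^ 2 := by field_simp
      have h1 := sup_piece hPLE (p := p) (Lam := Lam) hp hlam0 hTb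
        (D := C3 * (L ^ 2 / Lam * Lam) ^ ((n : ℝ) / 2) * A) (by positivity)
        (fun t ht x => hC3 lam Lam t A (L ^ 2 / Lam) _ hlam hLam hLl ht hTb
          (by
            have h3 : L ^ 2 ≤ Lam ^ 2 / lam := hXL.le
            rw [le_div_iff₀ hlam0] at h3
            nlinarith)
          (by gcongr)
          (by
            rw [div_le_div_iff₀ hLam0 hlam0]
            have h3 : L ^ 2 ≤ Lam ^ 2 / lam := hXL.le
            rw [le_div_iff₀ hlam0] at h3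
            nlinarith)
          (by
            intro x hx
            rw [hfb, ecut R0] at hx
            have h4 : hor x ∈ R0 := by
              by_contra h5
              apply hx
              unfold PIEm.cutR
              rw [indicator_of_notMem (show x ∉ {x | hor x ∈ R0} from h5)]
            have h5 : Lam * hor x < L ^ 2 := h4
            rw [le_div_iff₀ hLam0]
            linarith) x) univ
      simp only [Measure.restrict_univ] at h1
      refine h1.trans (conv _ _ _ (by positivity) ((hl2 fb hfbB).trans (cutle R0)) ?_)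
      rw [hδ]
      refine (pow_le (Y := L ^ 2) hn hp hpn hC30 hA hL2 (by positivity) le_rfl).trans
        (le_of_eq ?_)
      ring
    -- the good part
    have hgood : ∫⁻ t in Icc (1 : ℝ) 2, ∫⁻ x, ‖MM (mj n lam Lam t) (AL L (AL L fg)) x‖ₑ ^ p ≤
        ((Kg + C1 : ℝ≥0) : ℝ≥0∞) * ENNReal.ofReal Q * I := by
      set S0 : Set (EE (n + 1)) := {x | hor x ≤ L ^ 2 / Lam} with hS0
      set S1 : Set (EE (n + 1)) := {x | L ^ 2 ≤ Lam * hor x} with hS1
      have hun : (univ : Set (EE (n + 1))) ⊆ S0 ∪ S1 := by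
        intro x _
        by_cases h : hor x ≤ L ^ 2 / Lam
        · exact Or.inl h
        · right
          rw [not_le, div_lt_iff₀ hLam0] at h
          show L ^ 2 ≤ Lam * hor x
          linarith
      have h1 : ∫⁻ t in Icc (1 : ℝ) 2, ∫⁻ x in S0,
          ‖MM (mj n lam Lam t) (AL L (AL L fg)) x‖ₑ ^ p ≤
          (Kg : ℝ≥0∞) * ENNReal.ofReal Q * I := by
        have hD0 : 0 ≤ C2 * (1 + X) ^ ((n : ℝ) / 2) * A := by positivity
        calc ∫⁻ t in Icc (1 : ℝ) 2, ∫⁻ x in S0,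
              ‖MM (mj n lam Lam t) (AL L (AL L fg)) x‖ₑ ^ p
            ≤ ∫⁻ t in Icc (1 : ℝ) 2,
                ENNReal.ofReal ((C2 * (1 + X) ^ ((n : ℝ) / 2) * A) ^ (p - 2)) *
                ∫⁻ x in S0, ‖MM (mj n lam Lam t) (AL L (AL L fg)) x‖ₑ ^ 2 := by
              apply setLIntegral_mono' measurableSet_Icc
              intro t ht
              exact pow_split_on hp hD0 S0
                (fun x => hC2 lam Lam t A _ hlam hLam hLl ht hTg x)
          _ = ENNReal.ofReal ((C2 * (1 + X) ^ ((n : ℝ) / 2) * A) ^ (p - 2)) *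
                ∫⁻ t in Icc (1 : ℝ) 2,
                ∫⁻ x in S0, ‖MM (mj n lam Lam t) (AL L (AL L fg)) x‖ₑ ^ 2 := by
              rw [lintegral_const_mul' _ _ ENNReal.ofReal_ne_top]
          _ ≤ ENNReal.ofReal ((C2 * (1 + X) ^ ((n : ℝ) / 2) * A) ^ (p - 2)) *
                (C4 * ENNReal.ofReal (L ^ 2 / Lam * lam / Lam) * I) := by
              gcongr
              refine (hC4 lam Lam A (L ^ 2 / Lam) _ hlam hLam hLl hTg (by positivity)).trans ?_
              gcongr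
              exact (hl2 fg hfgB).trans (cutle R1)
          _ = (C4 : ℝ≥0∞) * (ENNReal.ofReal ((C2 * (1 + X) ^ ((n : ℝ) / 2) * A) ^ (p - 2) *
                (L ^ 2 / Lam * lam / Lam)) * I) := by
              rw [ENNReal.ofReal_mul (by positivity)]
              ring
          _ ≤ (C4 : ℝ≥0∞) * ((Real.toNNReal (2 * C2 ^ (p - 2)) : ℝ≥0∞) *
                ENNReal.ofReal Q * I) := by
              refine mul_le_mul_right (conv _ _ _ (by positivity) le_rfl ?_) _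
              have h3 := pow_le (Y := 2 * X) hn hp hpn hC20 hA (by linarith) (by positivity)
                (show 1 + X ≤ 2 * X by linarith)
              have h4 : 0 ≤ L ^ 2 / Lam * lam / Lam := by positivity
              refine (mul_le_mul_of_nonneg_right h3 h4).trans (le_of_eq ?_)
              rw [hX]
              field_simp
          _ = _ := by
              rw [hKg, ENNReal.coe_mul]
              ring
      have h2 : ∫⁻ t in Icc (1 : ℝ) 2, ∫⁻ x in S1,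
          ‖MM (mj n lam Lam t) (AL L (AL L fg)) x‖ₑ ^ p ≤
          (C1 : ℝ≥0∞) * ENNReal.ofReal Q * I := by
        refine ((hC1 lam Lam L A fg hlam hLam hLl hL hL8 hfgB).1 ?_).trans ?_
        · intro x hx
          have h4 : hor x ∈ R1 := by
            by_contra h5
            apply hx
            rw [hfg]
            unfold PIEm.cutR
            rw [indicator_of_notMem (show x ∉ {x | hor x ∈ R1} from h5)]
          refine ⟨h4, hsupp x ?_⟩
          intro h5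
          apply hx
          rw [hfg]
          unfold PIEm.cutR
          rw [indicator_of_mem (show x ∈ {x | hor x ∈ R1} from h4), h5]
        · exact mul_le_mul' conv1 (cutle R1)
      calc ∫⁻ t in Icc (1 : ℝ) 2, ∫⁻ x, ‖MM (mj n lam Lam t) (AL L (AL L fg)) x‖ₑ ^ p
          ≤ ∫⁻ t in Icc (1 : ℝ) 2, ((∫⁻ x in S0, ‖MM (mj n lam Lam t) (AL L (AL L fg)) x‖ₑ ^ p) +
            ∫⁻ x in S1, ‖MM (mj n lam Lam t) (AL L (AL L fg)) x‖ₑ ^ p) := by
            refine lintegral_mono fun t => ?_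
            calc ∫⁻ x, ‖MM (mj n lam Lam t) (AL L (AL L fg)) x‖ₑ ^ p
                = ∫⁻ x in univ, ‖MM (mj n lam Lam t) (AL L (AL L fg)) x‖ₑ ^ p := by
                  rw [Measure.restrict_univ]
              _ ≤ ∫⁻ x in S0 ∪ S1, ‖MM (mj n lam Lam t) (AL L (AL L fg)) x‖ₑ ^ p :=
                  lintegral_mono_set hun
              _ ≤ _ := lintegral_union_le _ _ _
        _ = (∫⁻ t in Icc (1 : ℝ) 2, ∫⁻ x in S0, ‖MM (mj n lam Lam t) (AL L (AL L fg)) x‖ₑ ^ p) +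
            ∫⁻ t in Icc (1 : ℝ) 2, ∫⁻ x in S1, ‖MM (mj n lam Lam t) (AL L (AL L fg)) x‖ₑ ^ p :=
            lintegral_add_left (hmg.lintegral_prod_right' (ν := volume.restrict S0)) _
        _ ≤ (Kg : ℝ≥0∞) * ENNReal.ofReal Q * I + (C1 : ℝ≥0∞) * ENNReal.ofReal Q * I :=
            add_le_add h1 h2
        _ = _ := by
            rw [ENNReal.coe_add]
            ring
    have h2t : (K2 : ℝ≥0∞) ≠ ⊤ := ENNReal.coe_ne_top
    calc ∫⁻ t in Icc (1 : ℝ) 2, ∫⁻ x, ‖MM (mj n lam Lam t) (AL L (AL L f)) x‖ₑ ^ p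
        ≤ ∫⁻ t in Icc (1 : ℝ) 2, ∫⁻ x,
          (K2 : ℝ≥0∞) * (‖MM (mj n lam Lam t) (AL L (AL L fb)) x‖ₑ ^ p +
          ‖MM (mj n lam Lam t) (AL L (AL L fg)) x‖ₑ ^ p) :=
          lintegral_mono fun t => lintegral_mono fun x => hsplit t x
      _ = ∫⁻ t in Icc (1 : ℝ) 2,
          (K2 : ℝ≥0∞) * ((∫⁻ x, ‖MM (mj n lam Lam t) (AL L (AL L fb)) x‖ₑ ^ p) +
          ∫⁻ x, ‖MM (mj n lam Lam t) (AL L (AL L fg)) x‖ₑ ^ p) := by
          refine lintegral_congr fun t => ?_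
          rw [lintegral_const_mul' _ _ h2t]
          congr 1
          exact lintegral_add_left (hmb.comp (measurable_prodMk_left (x := t))) _
      _ = (K2 : ℝ≥0∞) * ((∫⁻ t in Icc (1 : ℝ) 2,
            ∫⁻ x, ‖MM (mj n lam Lam t) (AL L (AL L fb)) x‖ₑ ^ p) +
          ∫⁻ t in Icc (1 : ℝ) 2, ∫⁻ x, ‖MM (mj n lam Lam t) (AL L (AL L fg)) x‖ₑ ^ p) := by
          rw [lintegral_const_mul' _ _ h2t]
          congr 1
          exact lintegral_add_left hmb.lintegral_prod_right' _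
      _ ≤ (K2 : ℝ≥0∞) * ((Kb : ℝ≥0∞) * ENNReal.ofReal Q * I +
            ((Kg + C1 : ℝ≥0) : ℝ≥0∞) * ENNReal.ofReal Q * I) := by
          gcongr
      _ = ((K2 * (Kb + (Kg + C1)) : ℝ≥0) : ℝ≥0∞) * ENNReal.ofReal Q * I := by
          push_cast
          ring
      _ ≤ _ := by
          gcongr
          exact_mod_cast (le_add_self : K2 * (Kb + (Kg + C1)) ≤
            Ka + C1 + K2 * (Kb + (Kg + C1)))
  · intro i hi hsupp
    refine ((hC1 lam Lam L A f hlam hLam hLl hL hL8 hf).2 i hi hsupp).trans ?_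
    exact le_trans (mul_le_mul' conv1 le_rfl) hKsum2

end Pool.Agent.H47.BR
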