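import Pool.Agent.H83.AR.Targets
import Pool.Agent.H57.LS.PC1

/-!
Module ST of the board br_modules (MP_ee74d2_an): the slab estimate for functions concentrated
away from the slab.
-/

set_option autoImplicit false

namespace Pool.Agent.H47.BR

open MeasureTheory Set
open Pool.Agent.H83.AR Pool.Agent.H83.LS
open Pool.Agent.H57.LS (measurable_KK measurable_cvKK cv_young2 lp_le_l2 lp_le_l2' measurableSet_slab)
open scoped ENNReal NNReal

/-- the estimates of S2D with real constants -/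
lemma slab2 (hS : T_S2D) (p η : ℝ) (hp : 2 < p)
    (hp3 : p ≤ 3) (hη : 0 < η) : ∃ C : ℝ, 0 ≤ C ∧ ∀ (lam Lam A : ℝ) (g : ℝ × ℝ → ℂ) (X : ℝ≥0∞),
    1 ≤ lam → 0 < Lam → Lam ≤ 4 * lam → Measurable g → Integrable g → (∀ y, ‖g y‖ ≤ A) →
    ∫⁻ y, ‖g y‖ₑ ^ 2 ≤ X →
    (∫⁻ t in Icc (1 : ℝ) 2, ∫⁻ x, ‖cv (KK t lam Lam) g x‖ₑ ^ p ≤
      ENNReal.ofReal (C * (lam ^ η * A ^ (p - 2))) * X) ∧
    (∀ δ : ℝ, 0 < δ →
      ∫⁻ t in Icc (1 : ℝ) 2, ∫⁻ x in {x : ℝ × ℝ | |x.1| ≤ δ},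
        ‖cv (KK t lam Lam) g x‖ₑ ^ p ≤
      ENNReal.ofReal (C * (lam ^ η * (δ * lam / Lam) ^ (2 - p / 2) * A ^ (p - 2))) * X) := by
  obtain ⟨CS, hCS⟩ := hS p η hp hp3 hη
  refine ⟨CS, by positivity, ?_⟩
  intro lam Lam A g X hlam hLam hLl h1 h2 h3 h4
  obtain ⟨h5, h6⟩ := hCS lam Lam g A hlam hLam hLl h1 h2 h3
  have key : ∀ q : ℝ, (CS : ℝ≥0∞) * ENNReal.ofReal q *
      ∫⁻ y, ‖g y‖ₑ ^ 2 ≤ ENNReal.ofReal (CS * q) * X := by
    intro q
    rw [ENNReal.ofReal_mul (by positivity), ENNReal.ofReal_coe_nnreal]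
    gcongr
  exact ⟨h5.trans (key _), fun δ hδ => (h6 δ hδ).trans (key _)⟩

/-- the far part, case (ii)(b), at a fixed time -/
lemma far2 (hKL : T_KL1) (hY : T_YG) (p η : ℝ) (hp : 2 < p)
    (hp3 : p ≤ 3) (hη : 0 < η) : ∃ (N : ℕ) (C : ℝ), 0 ≤ C ∧ ∀ (lam Lam A D δ t : ℝ)
    (g : ℝ × ℝ → ℂ) (X : ℝ≥0∞), 1 ≤ lam →
    0 < Lam → Lam ≤ 4 * lam → 0 < D → 4 * lam ^ η ≤ Lam * D → 16000 * Lam ≤ D * lam → 0 ≤ t → t ≤ 2 →
    δ ≤ D / 16 → Measurable g → Integrable g → (∀ y, ‖g y‖ ≤ A) → ∫⁻ y, ‖g y‖ₑ ^ 2 ≤ X →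
    (∀ x : ℝ × ℝ, |x.1| ≤ D / 2 → ‖g x‖ ≤ A / (Lam * D) ^ N) →
    ∫⁻ x in {x : ℝ × ℝ | |x.1| ≤ D / 2}, ‖g x‖ₑ ^ 2 ≤ ENNReal.ofReal (1 / (Lam * D) ^ N) * X →
    ∫⁻ x in {x : ℝ × ℝ | |x.1| ≤ δ}, ‖cv (KK t lam Lam) g x‖ₑ ^ p ≤
      ENNReal.ofReal (C * (lam⁻¹ * A ^ (p - 2))) * X := by
  obtain ⟨N, hN⟩ := exists_nat_ge (5 / η)
  have hN' : 5 ≤ N * η := by
    rw [div_le_iff₀ hη] at hN; exact hN
  obtain ⟨C1, hC1⟩ := hKL.1
  obtain ⟨C2, hC2⟩ := hKL.2 N
  refine ⟨N, 2 ^ (p - 1) * ((C1 : ℝ) ^ p + (C2 : ℝ) ^ p), by positivity, ?_⟩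
  intro lam Lam A D δ t g X hlam hLam hLl hD hLD hal ht0 ht2 hδ g1 g2 g3 g4 g5 g6
  have hA : 0 ≤ A := (norm_nonneg _).trans (g3 0)
  have hlam0 : 0 < lam := by linarith
  have hlη : 1 ≤ lam ^ η := Real.one_le_rpow hlam hη.le
  have hLD1 : 1 ≤ Lam * D := by linarith
  have hKm : Measurable (KK t lam Lam) :=
    (measurable_KK lam Lam).comp (f := fun x : ℝ × ℝ => (t, x)) (by fun_prop)
  set S' : Set (ℝ × ℝ) := {x : ℝ × ℝ | |x.1| ≤ D / 2} with hS'
  have hS'm : MeasurableSet S' := measurableSet_slab _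
  set T : Set (ℝ × ℝ) := {x : ℝ × ℝ | D / 4 ≤ |x.1|} with hT
  have hTm : MeasurableSet T := measurableSet_le (by fun_prop) (by fun_prop)
  have hmain := cv_young2 hY (KK t lam Lam) g {x : ℝ × ℝ | |x.1| ≤ δ}
    (measurableSet_slab δ) (fun x => ‖KK t lam Lam x‖ₑ) (T.indicator (fun x => ‖KK t lam Lam x‖ₑ))
    (S'.indicator (fun y => ‖g y‖ₑ)) (fun y => ‖g y‖ₑ) hKm.enorm
    (hKm.enorm.indicator hTm) (g1.enorm.indicator hS'm) g1.enorm p (by linarith) ?_
  swap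
  · intro x hx y
    rw [mem_ofPred_eq] at hx
    by_cases hy : y ∈ S'
    · rw [indicator_of_mem hy]
      exact le_self_add
    · have h1 : D / 2 < |y.1| := by
        rw [hS', mem_ofPred_eq, not_le] at hy; exact hy
      have h2 : x - y ∈ T := by
        rw [hT, mem_ofPred_eq, Prod.fst_sub]
        have := abs_sub_abs_le_abs_sub y.1 x.1
        rw [abs_sub_comm] at this
        linarith
      rw [indicator_of_mem h2]
      exact le_add_self
  -- L¹ norms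
  have k1 : ∫⁻ x, ‖KK t lam Lam x‖ₑ ≤ ENNReal.ofReal (C1 * lam ^ (1 / 2 : ℝ)) := by
    refine (hC1 lam Lam t hlam hLam hLl ht0 ht2).trans (le_of_eq ?_)
    rw [ENNReal.ofReal_mul (by positivity), ENNReal.ofReal_coe_nnreal, Real.sqrt_eq_rpow]
  have hmin : lam ^ (η / 2) ≤ min (Real.sqrt lam) Lam * (D / 4) := by
    have h0 : lam ^ (η / 2) ≤ lam ^ η :=
      Real.rpow_le_rpow_of_exponent_le hlam (by linarith)
    rcases min_choice (Real.sqrt lam) Lam with h | h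
    · rw [h]
      have h1 : (lam ^ (η / 2)) ^ 2 ≤ (Real.sqrt lam * (D / 4)) ^ 2 := by
        rw [mul_pow, Real.sq_sqrt hlam0.le, ← Real.rpow_natCast, ← Real.rpow_mul hlam0.le]
        have : η / 2 * ((2 : ℕ) : ℝ) = η := by push_cast; ring
        rw [this]
        have h2 : D * (16000 * Lam) ≤ D * (D * lam) := by gcongr
        nlinarith
      exact (pow_le_pow_iff_left₀ (by positivity) (by positivity) two_ne_zero).1 h1
    · rw [h]
      linarith
  have hmin1 : 1 ≤ min (Real.sqrt lam) Lam * (D / 4) :=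
    (Real.one_le_rpow hlam (by positivity)).trans hmin
  have k2 : ∫⁻ x, T.indicator (fun x => ‖KK t lam Lam x‖ₑ) x ≤
      ENNReal.ofReal (C2 * lam ^ (-(1 / 2) : ℝ)) := by
    rw [lintegral_indicator hTm]
    refine (hC2 lam Lam t (D / 4) hlam hLam hLl ht0 ht2 ?_ hmin1).trans ?_
    · rw [div_le_iff₀ hlam0]; linarith
    · rw [ENNReal.ofReal_mul (by positivity), ENNReal.ofReal_coe_nnreal]
      gcongr
      rw [div_le_iff₀ (by positivity)]
      have h3 : lam ^ (1 : ℝ) ≤ (min (Real.sqrt lam) Lam * (D / 4)) ^ N := by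
        calc lam ^ (1 : ℝ) ≤ lam ^ (η / 2 * N) :=
              Real.rpow_le_rpow_of_exponent_le hlam (by linarith)
          _ = (lam ^ (η / 2)) ^ N := by rw [Real.rpow_mul hlam0.le, Real.rpow_natCast]
          _ ≤ _ := pow_le_pow_left₀ (by positivity) hmin N
      calc Real.sqrt lam = lam ^ (-(1 / 2) : ℝ) * lam ^ (1 : ℝ) := by
            rw [← Real.rpow_add hlam0, Real.sqrt_eq_rpow]; norm_num
        _ ≤ _ := by gcongr
  -- Lᵖ norms
  have l1 : ∫⁻ y, (S'.indicator (fun y => ‖g y‖ₑ) y) ^ p ≤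
      ENNReal.ofReal (lam ^ (-(5 / 2) : ℝ) * A ^ (p - 2)) * X := by
    have h1 : ∀ y, (S'.indicator (fun y => ‖g y‖ₑ) y) ^ p =
        S'.indicator (fun y => ‖g y‖ₑ ^ p) y := by
      intro y
      by_cases hy : y ∈ S'
      · rw [indicator_of_mem hy, indicator_of_mem hy]
      · rw [indicator_of_notMem hy, indicator_of_notMem hy, ENNReal.zero_rpow_of_pos (by linarith)]
    simp only [h1]
    rw [lintegral_indicator hS'm]
    have hq : 1 ≤ (Lam * D) ^ N := one_le_pow₀ hLD1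
    have hM : ∀ y ∈ S', ‖g y‖ ≤ A := by
      intro y hy
      refine (g5 y hy).trans ?_
      exact div_le_self (by positivity) hq
    refine (lp_le_l2' _ S' hS'm A p hp.le hM (by positivity)).trans ?_
    have h2 : 1 / (Lam * D) ^ N ≤ lam ^ (-(5 / 2) : ℝ) := by
      rw [one_div, Real.rpow_neg hlam0.le]
      apply inv_anti₀ (by positivity)
      calc lam ^ (5 / 2 : ℝ) ≤ lam ^ (η * N) :=
            Real.rpow_le_rpow_of_exponent_le hlam (by linarith)
        _ = (lam ^ η) ^ N := by rw [Real.rpow_mul hlam0.le, Real.rpow_natCast]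
        _ ≤ _ := pow_le_pow_left₀ (by positivity) (by linarith) N
    calc ENNReal.ofReal (A ^ (p - 2)) * ∫⁻ y in S', ‖g y‖ₑ ^ 2
        ≤ ENNReal.ofReal (A ^ (p - 2)) * (ENNReal.ofReal (lam ^ (-(5 / 2) : ℝ)) * X) := by
          gcongr
          exact g6.trans (by gcongr)
      _ = _ := by
          rw [← mul_assoc, ← ENNReal.ofReal_mul (by positivity)]
          congr 2; ring
  have l2' : ∫⁻ y, ‖g y‖ₑ ^ p ≤ ENNReal.ofReal (A ^ (p - 2)) * X := by
    refine (lp_le_l2 _ A p hp.le g3 (by positivity)).trans ?_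
    gcongr
  refine hmain.trans ?_
  have hA' : 0 ≤ A ^ (p - 2) := by positivity
  calc (2 : ℝ≥0∞) ^ (p - 1) * ((∫⁻ y, ‖KK t lam Lam y‖ₑ) ^ p *
        (∫⁻ y, (S'.indicator (fun y => ‖g y‖ₑ) y) ^ p) +
        (∫⁻ y, T.indicator (fun x => ‖KK t lam Lam x‖ₑ) y) ^ p * (∫⁻ y, ‖g y‖ₑ ^ p))
      ≤ ENNReal.ofReal (2 ^ (p - 1)) * (ENNReal.ofReal (C1 * lam ^ (1 / 2 : ℝ)) ^ p *
        (ENNReal.ofReal (lam ^ (-(5 / 2) : ℝ) * A ^ (p - 2)) * X) +
          ENNReal.ofReal (C2 * lam ^ (-(1 / 2) : ℝ)) ^ p *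
          (ENNReal.ofReal (A ^ (p - 2)) * X)) := by
        rw [← ENNReal.ofReal_rpow_of_nonneg (by norm_num) (by linarith),
          show ENNReal.ofReal 2 = 2 by norm_num]
        gcongr
    _ = ENNReal.ofReal (2 ^ (p - 1) * ((C1 * lam ^ (1 / 2 : ℝ)) ^ p *
          (lam ^ (-(5 / 2) : ℝ) * A ^ (p - 2)) +
          (C2 * lam ^ (-(1 / 2) : ℝ)) ^ p * A ^ (p - 2))) * X := by
        rw [ENNReal.ofReal_rpow_of_nonneg (by positivity) (by linarith),
          ENNReal.ofReal_rpow_of_nonneg (by positivity) (by linarith),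
          ENNReal.ofReal_mul (p := (2 : ℝ) ^ (p - 1)) (by positivity),
          ENNReal.ofReal_add (by positivity) (by positivity),
          ENNReal.ofReal_mul (p := (C1 * lam ^ (1 / 2 : ℝ)) ^ p) (by positivity),
          ENNReal.ofReal_mul (p := (C2 * lam ^ (-(1 / 2) : ℝ)) ^ p) (by positivity)]
        ring
    _ ≤ _ := by
        refine mul_le_mul' (ENNReal.ofReal_le_ofReal ?_) le_rfl
        have h1 : (C1 * lam ^ (1 / 2 : ℝ)) ^ p * lam ^ (-(5 / 2) : ℝ) ≤ (C1 : ℝ) ^ p * lam⁻¹ := by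
          rw [Real.mul_rpow (by positivity) (by positivity), mul_assoc, ← Real.rpow_mul hlam0.le,
            ← Real.rpow_add hlam0, ← Real.rpow_neg_one lam]
          gcongr
          linarith
        have h2 : (C2 * lam ^ (-(1 / 2) : ℝ)) ^ p ≤ (C2 : ℝ) ^ p * lam⁻¹ := by
          rw [Real.mul_rpow (by positivity) (by positivity), ← Real.rpow_mul hlam0.le,
            ← Real.rpow_neg_one lam]
          gcongr
          linarith
        calc 2 ^ (p - 1) * ((C1 * lam ^ (1 / 2 : ℝ)) ^ p *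
            (lam ^ (-(5 / 2) : ℝ) * A ^ (p - 2)) +
            (C2 * lam ^ (-(1 / 2) : ℝ)) ^ p * A ^ (p - 2))
            = 2 ^ (p - 1) * (((C1 * lam ^ (1 / 2 : ℝ)) ^ p * lam ^ (-(5 / 2) : ℝ)) *
            A ^ (p - 2) + (C2 * lam ^ (-(1 / 2) : ℝ)) ^ p * A ^ (p - 2)) := by ring
          _ ≤ 2 ^ (p - 1) * (((C1 : ℝ) ^ p * lam⁻¹) * A ^ (p - 2) +
            ((C2 : ℝ) ^ p * lam⁻¹) * A ^ (p - 2)) := by gcongr
          _ = _ := by ring

theorem pf_st (hS : T_S2D) (hKL : T_KL1) (hYG : T_YG) : T_ST := by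
  intro p β η hp hp3 hβ hβ1 hβp hη
  obtain ⟨C1, hC10, hC1⟩ := slab2 hS p (η / 4) hp hp3 (by positivity)
  obtain ⟨N, C2, hC20, hC2⟩ := far2 hKL hYG p (η / 4) hp hp3 (by positivity)
  refine ⟨N, 16000 * C1 + 256 * C2, by positivity, ?_⟩
  intro lam Lam A D δ g X hlam hLam hLl hD hD64 g1 g2 g3 g4 gd hδ1 hδ2
  have hA : 0 ≤ A := (norm_nonneg _).trans (g3 0)
  have hA' : 0 ≤ A ^ (p - 2) := by positivity
  have hlam0 : 0 < lam := by linarith
  have hLam0 : 0 < Lam := by linarith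
  have hδ0 : 0 < δ := lt_of_lt_of_le (by positivity) hδ1
  set u : ℝ := δ / D with hu
  have hu0 : 0 < u := by positivity
  have hu1 : u ≤ 1 := by rw [hu, div_le_one hD]; linarith
  have huβ : u ≤ u ^ β := by
    calc u = u ^ (1 : ℝ) := (Real.rpow_one u).symm
      _ ≤ u ^ β := Real.rpow_le_rpow_of_exponent_ge hu0 hu1 hβ1.le
  have huL : 1 / (Lam * D) ≤ u := by
    rw [hu, div_le_div_iff₀ (by positivity) hD]
    rw [div_le_iff₀ hLam0] at hδ1
    nlinarith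
  have hl1 : 1 ≤ lam ^ (η / 4) := Real.one_le_rpow hlam (by positivity)
  have hl2 : lam ^ (η / 2) = lam ^ (η / 4) * lam ^ (η / 4) := by
    rw [← Real.rpow_add hlam0]; congr 1; ring
  have hl3 : lam ^ (η / 2) ≤ lam ^ η := Real.rpow_le_rpow_of_exponent_le hlam (by linarith)
  have hl0 : 0 < lam ^ (η / 4) := by positivity
  obtain ⟨hall, hslab⟩ := hC1 lam Lam A g X hlam hLam0 hLl g1 g2 g3 g4
  -- it is enough to have one of the bounds
  have fin : ∀ c : ℝ, 0 ≤ c → c ≤ (16000 * C1 + 256 * C2) * (lam ^ (η / 2) * u ^ β) →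
      ENNReal.ofReal (c * A ^ (p - 2)) * X ≤
      ENNReal.ofReal ((16000 * C1 + 256 * C2) * (lam ^ η * u ^ β * A ^ (p - 2))) * X := by
    intro c hc hcc
    refine mul_le_mul' (ENNReal.ofReal_le_ofReal ?_) le_rfl
    calc c * A ^ (p - 2) ≤ (16000 * C1 + 256 * C2) * (lam ^ (η / 2) * u ^ β) * A ^ (p - 2) := by
          gcongr
      _ ≤ (16000 * C1 + 256 * C2) * (lam ^ η * u ^ β) * A ^ (p - 2) := by
          gcongr
      _ = _ := by ring
  by_cases h1 : Lam * D ≤ 4 * lam ^ (η / 4)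
  · -- case (i)
    have h2 : ∫⁻ t in Icc (1 : ℝ) 2, ∫⁻ x in {x : ℝ × ℝ | |x.1| ≤ δ},
        ‖cv (KK t lam Lam) g x‖ₑ ^ p ≤
        ENNReal.ofReal (C1 * lam ^ (η / 4) * A ^ (p - 2)) * X := by
      refine le_trans (lintegral_mono fun t => ?_) (hall.trans (le_of_eq ?_))
      · exact setLIntegral_le_lintegral _ _
      · congr 2; ring
    refine h2.trans (fin _ (by positivity) ?_)
    have h3 : 1 / (4 * lam ^ (η / 4)) ≤ u ^ β := by
      refine le_trans ?_ (huL.trans huβ)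
      apply one_div_le_one_div_of_le (by positivity) h1
    have h4 : lam ^ (η / 4) ≤ 4 * (lam ^ (η / 2) * u ^ β) := by
      rw [div_le_iff₀ (by positivity)] at h3
      rw [hl2]
      nlinarith
    have h5 : 0 ≤ lam ^ (η / 2) * u ^ β := by positivity
    nlinarith [mul_le_mul_of_nonneg_left h4 hC10, mul_nonneg hC10 h5, mul_nonneg hC20 h5]
  push Not at h1
  by_cases h2 : D * lam ≤ 16000 * Lam
  · -- case (ii)(a)
    have h3 := hslab δ hδ0
    have h4 : ∫⁻ t in Icc (1 : ℝ) 2, ∫⁻ x in {x : ℝ × ℝ | |x.1| ≤ δ},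
        ‖cv (KK t lam Lam) g x‖ₑ ^ p ≤
        ENNReal.ofReal (C1 * (lam ^ (η / 4) * (δ * lam / Lam) ^ (2 - p / 2)) * A ^ (p - 2)) *
          X := by
      refine h3.trans (le_of_eq ?_)
      congr 2; ring
    refine h4.trans (fin _ (by positivity) ?_)
    have h5 : δ * lam / Lam ≤ 16000 * u := by
      rw [hu, ← mul_div_assoc, div_le_div_iff₀ hLam0 hD]
      nlinarith
    have h6 : (δ * lam / Lam) ^ (2 - p / 2) ≤ 16000 * u ^ β := by
      calc (δ * lam / Lam) ^ (2 - p / 2) ≤ (16000 * u) ^ (2 - p / 2) :=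
            Real.rpow_le_rpow (by positivity) h5 (by linarith)
        _ = 16000 ^ (2 - p / 2) * u ^ (2 - p / 2) := Real.mul_rpow (by norm_num) hu0.le
        _ ≤ 16000 ^ (1 : ℝ) * u ^ β := by
            apply mul_le_mul
            · exact Real.rpow_le_rpow_of_exponent_le (by norm_num) (by linarith)
            · exact Real.rpow_le_rpow_of_exponent_ge hu0 hu1 hβp
            · positivity
            · positivity
        _ = 16000 * u ^ β := by rw [Real.rpow_one]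
    have h7 : lam ^ (η / 4) ≤ lam ^ (η / 2) :=
      Real.rpow_le_rpow_of_exponent_le hlam (by linarith)
    have h8 : lam ^ (η / 4) * (δ * lam / Lam) ^ (2 - p / 2) ≤ lam ^ (η / 2) * (16000 * u ^ β) :=
      mul_le_mul h7 h6 (by positivity) (by positivity)
    have h9 : 0 ≤ lam ^ (η / 2) * u ^ β := by positivity
    nlinarith [mul_le_mul_of_nonneg_left h8 hC10, mul_nonneg hC20 h9]
  · -- case (ii)(b)
    push Not at h2
    obtain ⟨g5, g6⟩ := gd (by linarith)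
    have h3 : ∫⁻ t in Icc (1 : ℝ) 2, ∫⁻ x in {x : ℝ × ℝ | |x.1| ≤ δ},
        ‖cv (KK t lam Lam) g x‖ₑ ^ p ≤
        ENNReal.ofReal (C2 * lam⁻¹ * A ^ (p - 2)) * X := by
      calc ∫⁻ t in Icc (1 : ℝ) 2, ∫⁻ x in {x : ℝ × ℝ | |x.1| ≤ δ},
            ‖cv (KK t lam Lam) g x‖ₑ ^ p
          ≤ ∫⁻ t in Icc (1 : ℝ) 2, ENNReal.ofReal (C2 * (lam⁻¹ * A ^ (p - 2))) * X := by
            apply setLIntegral_mono' measurableSet_Icc
            intro t ht
            exact hC2 lam Lam A D δ t g X hlam hLam0 hLl hD h1.le h2.le (by linarith [ht.1]) ht.2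
              hδ2 g1 g2 g3 g4 g5 g6
        _ = _ := by
            rw [lintegral_const, Measure.restrict_apply MeasurableSet.univ, univ_inter,
              Real.volume_Icc]
            norm_num
            rw [mul_assoc]
    refine h3.trans (fin _ (by positivity) ?_)
    have h4 : lam⁻¹ ≤ 256 * u ^ β := by
      have h5 : 1 / (256 * lam) ≤ 1 / (Lam * D) := by
        apply one_div_le_one_div_of_le (by positivity)
        nlinarith
      have h6 : 1 / (256 * lam) ≤ u ^ β := h5.trans (huL.trans huβ)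
      have h7 : lam⁻¹ = 256 * (1 / (256 * lam)) := by field_simp
      rw [h7]; gcongr
    have h5 : 1 ≤ lam ^ (η / 2) := Real.one_le_rpow hlam (by positivity)
    have h6 : 0 ≤ u ^ β := by positivity
    have h7 : lam⁻¹ ≤ 256 * (lam ^ (η / 2) * u ^ β) := by nlinarith
    have h9 : 0 ≤ lam ^ (η / 2) * u ^ β := by positivity
    nlinarith [mul_le_mul_of_nonneg_left h7 hC20, mul_nonneg hC10 h9]

end Pool.Agent.H47.BR
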