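import Pool.Agent.H83.AR.Targets2
import Pool.Agent.H57.LS.PC1

/-!
Module WP2 of the board br_modules (MP_ee74d2_an): the weighted estimate in the plane on slabs in
the second variable.
-/

set_option autoImplicit false

namespace Pool.Agent.H47.BR

open MeasureTheory Set
open Pool.Agent.H83.AR Pool.Agent.H83.LS
open Pool.Agent.H57.LS (measurableSet_slab weight_bound)
open scoped ENNReal NNReal

theorem wp2_measurable_KK2 (lam Lam M : ℝ) :
    Measurable (fun q : ℝ × (ℝ × ℝ) => KK2 q.1 lam Lam M q.2) := by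
  unfold KK2
  have hchi : Measurable chi := Pool.Agent.H57.LS.contDiff_chi.continuous.measurable
  have hchis : Measurable chis := Pool.Agent.H57.LS.contDiff_chis.continuous.measurable
  have : StronglyMeasurable (fun q : ℝ × (ℝ × ℝ) =>
      ∫ ξ : ℝ × ℝ, e (q.2.1 * ξ.1 + q.2.2 * ξ.2 + q.1 * Real.sqrt (ξ.1 ^ 2 + ξ.2 ^ 2)) *
    ((chi (Real.sqrt (ξ.1 ^ 2 + ξ.2 ^ 2) / lam) * chis (ξ.1 / Lam) * chis (ξ.2 / M) : ℝ) : ℂ)) := by
    apply StronglyMeasurable.integral_prod_right
      (f := fun (q : ℝ × (ℝ × ℝ)) (ξ : ℝ × ℝ) =>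
        e (q.2.1 * ξ.1 + q.2.2 * ξ.2 + q.1 * Real.sqrt (ξ.1 ^ 2 + ξ.2 ^ 2)) *
          ((chi (Real.sqrt (ξ.1 ^ 2 + ξ.2 ^ 2) / lam) * chis (ξ.1 / Lam) * chis (ξ.2 / M) : ℝ) : ℂ))
    apply Measurable.stronglyMeasurable
    apply Measurable.mul
    · exact measurable_e.comp (by fun_prop)
    · apply Complex.measurable_ofReal.comp
      exact ((hchi.comp (by fun_prop)).mul (hchis.comp (by fun_prop))).mul (hchis.comp (by fun_prop))
  exact this.measurable

theorem wp2_measurable_cvKK2 (lam Lam M : ℝ) (G : ℝ × ℝ → ℂ) (hG : Measurable G) :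
    Measurable (fun q : ℝ × (ℝ × ℝ) => cv (KK2 q.1 lam Lam M) G q.2) := by
  unfold cv
  have : StronglyMeasurable (fun q : ℝ × (ℝ × ℝ) => ∫ y, KK2 q.1 lam Lam M (q.2 - y) * G y) := by
    apply StronglyMeasurable.integral_prod_right
      (f := fun (q : ℝ × (ℝ × ℝ)) (y : ℝ × ℝ) => KK2 q.1 lam Lam M (q.2 - y) * G y)
    apply Measurable.stronglyMeasurable
    apply Measurable.mul
    · exact (wp2_measurable_KK2 lam Lam M).comp
        (f := fun r : (ℝ × (ℝ × ℝ)) × (ℝ × ℝ) => (r.1.1, r.1.2 - r.2)) (by fun_prop)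
    · exact hG.comp measurable_snd
  exact this.measurable

theorem pf_wp2 (hST : T_ST2) (hS : T_S22) : T_WP2 := by
  classical
  intro p β γ η hp hp3 hβ hβ1 hγ hβp hη
  obtain ⟨C1, hC1⟩ := hS p η hp hp3 hη
  obtain ⟨N, C2, hC20, hC2⟩ := hST p β γ (η / 2) hp hp3 hβ hβ1 hγ hβp (by positivity)
  have hlog2 : 0 < Real.log 2 := Real.log_pos (by norm_num)
  set CL : ℝ := 6 + 2 / (η * Real.log 2) with hCL
  have hCL0 : 0 ≤ CL := by positivity
  refine ⟨N, Real.toNNReal (16 * C1 + CL * (2 * C2)), ?_⟩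
  intro lam Lam M A D ε g X hlam hLam hLl hM hMl hLD hD64 g1 g2 g3 g4 g5 g6 hε
  have hA : 0 ≤ A := (norm_nonneg _).trans (g3 0)
  have hA' : 0 ≤ A ^ (p - 2) := by positivity
  have hlam0 : 0 < lam := by linarith
  have hLam0 : 0 < Lam := by linarith
  have hM0 : 0 < M := by linarith
  have hε0 : 0 < ε := lt_of_lt_of_le (by positivity) hε
  have hb0 : 0 < ε * lam / M := by positivity
  set bg : ℝ := (ε * lam / M) ^ γ with hbg
  have hbg0 : 0 ≤ bg := by positivity
  have hLD0 : 0 < Lam * D := by linarith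
  have hD : 0 < D := pos_of_mul_pos_right hLD0 hLam0.le
  set E : Set (ℝ × ℝ) := {x : ℝ × ℝ | |x.2| ≤ ε} with hE
  have hEm : MeasurableSet E := measurableSet_le (by fun_prop) (by fun_prop)
  set f : ℝ → ℝ × ℝ → ℝ≥0∞ := fun t x => ‖cv (KK2 t lam Lam M) g x‖ₑ ^ p with hf
  have hfm : Measurable (Function.uncurry f) := by
    exact ((wp2_measurable_cvKK2 lam Lam M _ g1).enorm).pow_const p
  have hfm1 : ∀ t, Measurable (f t) := fun t => hfm.comp (f := fun x : ℝ × ℝ => (t, x)) (by fun_prop)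
  -- the number of dyadic scales
  set L : ℕ := ⌈Real.logb 2 (16 * lam)⌉₊ + 1 with hL
  have hL1 : D / 16 / 2 ^ L < 1 / Lam := by
    have h1 : 16 * lam ≤ 2 ^ ⌈Real.logb 2 (16 * lam)⌉₊ := by
      have h2 : Real.logb 2 (16 * lam) ≤ ⌈Real.logb 2 (16 * lam)⌉₊ := Nat.le_ceil _
      calc 16 * lam = 2 ^ Real.logb 2 (16 * lam) :=
            (Real.rpow_logb (by norm_num) (by norm_num) (by positivity)).symm
        _ ≤ 2 ^ ((⌈Real.logb 2 (16 * lam)⌉₊ : ℕ) : ℝ) :=
            Real.rpow_le_rpow_of_exponent_le (by norm_num) h2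
        _ = _ := Real.rpow_natCast _ _
    have h2 : 16 * lam < 2 ^ L := by
      rw [hL, pow_succ]; nlinarith
    rw [div_div, div_lt_div_iff₀ (by positivity) hLam0, one_mul]
    nlinarith
  have hL2 : (L : ℝ) ≤ CL * lam ^ (η / 2) := by
    have h0 : 0 ≤ Real.logb 2 (16 * lam) := Real.logb_nonneg (by norm_num) (by linarith)
    have h1 : (L : ℝ) ≤ Real.logb 2 (16 * lam) + 2 := by
      rw [hL]; push_cast
      linarith [Nat.ceil_lt_add_one h0]
    have h2 : Real.logb 2 (16 * lam) = 4 + Real.log lam / Real.log 2 := by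
      rw [Real.logb_mul (by norm_num) hlam0.ne']
      congr 1
      rw [show (16 : ℝ) = 2 ^ (4 : ℝ) by norm_num]
      exact Real.logb_rpow (by norm_num) (by norm_num)
    have h3 : Real.log lam ≤ lam ^ (η / 2) / (η / 2) := Real.log_le_rpow_div hlam0.le (by positivity)
    have h4 : Real.log lam / Real.log 2 ≤ 2 / (η * Real.log 2) * lam ^ (η / 2) := by
      rw [div_le_iff₀ hlog2]
      refine h3.trans (le_of_eq ?_)
      field_simp
    have h5 : 1 ≤ lam ^ (η / 2) := Real.one_le_rpow hlam (by positivity)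
    rw [hCL, add_mul]
    linarith
  set T : Finset ℕ := (Finset.range L).filter (fun k => 1 / Lam ≤ D / 16 / 2 ^ k) with hT
  have hTc : (T.card : ℝ) ≤ L := by
    have : T.card ≤ L := by
      calc T.card ≤ (Finset.range L).card := Finset.card_filter_le _ _
        _ = L := Finset.card_range L
    exact_mod_cast this
  set a₀ : ℝ≥0∞ := ENNReal.ofReal (16 * D ^ (-β)) with ha₀
  set ck' : ℕ → ℝ≥0∞ := fun k => ENNReal.ofReal ((2 / (D / 16 / 2 ^ k)) ^ β) with hck'
  set Sk : ℕ → Set (ℝ × ℝ) := fun k => {x : ℝ × ℝ | |x.1| ≤ D / 16 / 2 ^ k} with hSk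
  have hSkm : ∀ k, MeasurableSet (Sk k) := fun k => measurableSet_slab _
  -- splitting
  have split : ∀ t, ∫⁻ x : ℝ × ℝ in E, f t x * ENNReal.ofReal ((|x.1| + 1 / Lam) ^ (-β)) ≤
      a₀ * (∫⁻ x in E, f t x) + ∑ k ∈ T, ck' k * ∫⁻ x in Sk k ∩ E, f t x := by
    intro t
    have h1 : ∀ x : ℝ × ℝ, f t x * ENNReal.ofReal ((|x.1| + 1 / Lam) ^ (-β)) ≤
        a₀ * f t x + ∑ k ∈ T, ck' k * (Sk k).indicator (f t) x := by
      intro x
      have h2 := weight_bound β D (1 / Lam) hβ hβ1 hD (by positivity) L hL1 |x.1| (abs_nonneg _)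
      calc f t x * ENNReal.ofReal ((|x.1| + 1 / Lam) ^ (-β))
          ≤ f t x * (ENNReal.ofReal (16 * D ^ (-β)) +
            ∑ k ∈ (Finset.range L).filter (fun k => 1 / Lam ≤ D / 16 / 2 ^ k),
            (if |x.1| ≤ D / 16 / 2 ^ k then ENNReal.ofReal ((2 / (D / 16 / 2 ^ k)) ^ β) else 0)) := by
            gcongr
        _ = a₀ * f t x + ∑ k ∈ T, ck' k * (Sk k).indicator (f t) x := by
            rw [mul_add, Finset.mul_sum, mul_comm]
            congr 1
            apply Finset.sum_congr rfl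
            intro k _
            by_cases h3 : |x.1| ≤ D / 16 / 2 ^ k
            · rw [if_pos h3, indicator_of_mem (show x ∈ Sk k from h3), mul_comm]
            · rw [if_neg h3, indicator_of_notMem (show x ∉ Sk k from h3), mul_zero, mul_zero]
    refine (lintegral_mono h1).trans (le_of_eq ?_)
    rw [lintegral_add_left ((hfm1 t).const_mul _), lintegral_const_mul _ (hfm1 t),
      lintegral_finsetSum _ (fun k _ => ((hfm1 t).indicator (hSkm k)).const_mul _)]
    congr 1
    apply Finset.sum_congr rfl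
    intro k _
    rw [lintegral_const_mul _ ((hfm1 t).indicator (hSkm k)), lintegral_indicator (hSkm k),
      Measure.restrict_restrict (hSkm k)]
  have hm1 : Measurable (fun t => ∫⁻ x in E, f t x) := hfm.lintegral_prod_right
  have hm2 : ∀ k, Measurable (fun t => ∫⁻ x in Sk k ∩ E, f t x) :=
    fun k => hfm.lintegral_prod_right
  have total : ∫⁻ t in Icc (1 : ℝ) 2, ∫⁻ x : ℝ × ℝ in E, f t x *
      ENNReal.ofReal ((|x.1| + 1 / Lam) ^ (-β)) ≤
      ENNReal.ofReal ((16 * C1 + CL * (2 * C2)) * (lam ^ η * D ^ (-β) * bg * A ^ (p - 2))) * X := by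
    have hall : ∫⁻ t in Icc (1 : ℝ) 2, ∫⁻ x in E, f t x ≤
        ENNReal.ofReal (C1 * (lam ^ η * bg * A ^ (p - 2))) * X := by
      obtain ⟨w1, _, w3⟩ := hC1 lam Lam M g A hlam hLam0 hLl hM0 hMl g1 g2 g3
      rw [ENNReal.ofReal_mul (p := (C1 : ℝ)) (by positivity), ENNReal.ofReal_coe_nnreal]
      rcases le_total 1 (ε * lam / M) with h1 | h1
      · calc ∫⁻ t in Icc (1 : ℝ) 2, ∫⁻ x in E, f t x
            ≤ ∫⁻ t in Icc (1 : ℝ) 2, ∫⁻ x, f t x :=
              lintegral_mono fun t => setLIntegral_le_lintegral _ _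
          _ ≤ C1 * ENNReal.ofReal (lam ^ η * A ^ (p - 2)) * ∫⁻ y, ‖g y‖ₑ ^ 2 := w1
          _ ≤ C1 * ENNReal.ofReal (lam ^ η * bg * A ^ (p - 2)) * X := by
              have h2 : 1 ≤ bg := Real.one_le_rpow h1 hγ
              have h3 : lam ^ η * A ^ (p - 2) ≤ lam ^ η * bg * A ^ (p - 2) := by
                have h4 : 0 ≤ lam ^ η := by positivity
                calc lam ^ η * A ^ (p - 2) = lam ^ η * 1 * A ^ (p - 2) := by ring
                  _ ≤ lam ^ η * bg * A ^ (p - 2) := by gcongr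
              gcongr
      · calc ∫⁻ t in Icc (1 : ℝ) 2, ∫⁻ x in E, f t x
            ≤ C1 * ENNReal.ofReal (lam ^ η * (ε * lam / M) ^ (2 - p / 2) * A ^ (p - 2)) *
              ∫⁻ y, ‖g y‖ₑ ^ 2 := w3 ε hε0
          _ ≤ C1 * ENNReal.ofReal (lam ^ η * bg * A ^ (p - 2)) * X := by
              have h2 : (ε * lam / M) ^ (2 - p / 2) ≤ bg :=
                Real.rpow_le_rpow_of_exponent_ge hb0 h1 (by linarith)
              gcongr
    calc ∫⁻ t in Icc (1 : ℝ) 2, ∫⁻ x : ℝ × ℝ in E, f t x *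
          ENNReal.ofReal ((|x.1| + 1 / Lam) ^ (-β))
        ≤ ∫⁻ t in Icc (1 : ℝ) 2, (a₀ * (∫⁻ x in E, f t x) +
            ∑ k ∈ T, ck' k * ∫⁻ x in Sk k ∩ E, f t x) :=
          lintegral_mono split
      _ = a₀ * (∫⁻ t in Icc (1 : ℝ) 2, ∫⁻ x in E, f t x) +
          ∑ k ∈ T, ck' k * ∫⁻ t in Icc (1 : ℝ) 2, ∫⁻ x in Sk k ∩ E, f t x := by
          rw [lintegral_add_left (hm1.const_mul _), lintegral_const_mul _ hm1,
            lintegral_finsetSum _ (fun k _ => (hm2 k).const_mul _)]
          congr 1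
          apply Finset.sum_congr rfl
          intro k _
          rw [lintegral_const_mul _ (hm2 k)]
      _ ≤ a₀ * (ENNReal.ofReal (C1 * (lam ^ η * bg * A ^ (p - 2))) * X) +
          ∑ k ∈ T, ENNReal.ofReal (2 * C2 * (lam ^ (η / 2) * D ^ (-β) * bg * A ^ (p - 2))) * X := by
          apply add_le_add
          · gcongr
          · apply Finset.sum_le_sum
            intro k hk
            rw [hT, Finset.mem_filter] at hk
            set δ : ℝ := D / 16 / 2 ^ k with hδ
            have hδ0 : 0 < δ := by positivity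
            have h1 : δ ≤ D / 16 := by
              rw [hδ]
              exact div_le_self (by positivity) (one_le_pow₀ (by norm_num))
            have h2 := hC2 lam Lam M A D δ ε g X hlam hLam hLl hM hMl hD hD64 g1 g2 g3 g4
              (fun _ => ⟨g5, g6⟩) hk.2 h1 hε
            calc ck' k * ∫⁻ t in Icc (1 : ℝ) 2, ∫⁻ x in Sk k ∩ E, f t x
                ≤ ENNReal.ofReal ((2 / δ) ^ β) *
                  (ENNReal.ofReal (C2 * (lam ^ (η / 2) * (δ / D) ^ β * bg * A ^ (p - 2))) * X) := by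
                  gcongr
                  exact h2
              _ = ENNReal.ofReal ((2 / δ) ^ β * (C2 * (lam ^ (η / 2) * (δ / D) ^ β *
                    bg * A ^ (p - 2)))) * X := by
                  rw [← mul_assoc, ← ENNReal.ofReal_mul (by positivity)]
              _ ≤ _ := by
                  refine mul_le_mul' (ENNReal.ofReal_le_ofReal ?_) le_rfl
                  have h3 : (2 / δ) ^ β * (δ / D) ^ β ≤ 2 * D ^ (-β) := by
                    rw [← Real.mul_rpow (by positivity) (by positivity)]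
                    have h4 : 2 / δ * (δ / D) = 2 / D := by field_simp
                    rw [h4, Real.div_rpow (by norm_num) hD.le, Real.rpow_neg hD.le, div_eq_mul_inv]
                    gcongr
                    calc (2 : ℝ) ^ β ≤ 2 ^ (1 : ℝ) :=
                          Real.rpow_le_rpow_of_exponent_le (by norm_num) hβ1.le
                      _ = 2 := Real.rpow_one 2
                  calc (2 / δ) ^ β * (C2 * (lam ^ (η / 2) * (δ / D) ^ β * bg * A ^ (p - 2)))
                      = C2 * lam ^ (η / 2) * bg * A ^ (p - 2) * ((2 / δ) ^ β * (δ / D) ^ β) := by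
                        ring
                    _ ≤ C2 * lam ^ (η / 2) * bg * A ^ (p - 2) * (2 * D ^ (-β)) := by gcongr
                    _ = _ := by ring
      _ = ENNReal.ofReal (16 * D ^ (-β) * (C1 * (lam ^ η * bg * A ^ (p - 2))) +
          T.card * (2 * C2 * (lam ^ (η / 2) * D ^ (-β) * bg * A ^ (p - 2)))) * X := by
          rw [Finset.sum_const, nsmul_eq_mul, ENNReal.ofReal_add (by positivity) (by positivity),
            ENNReal.ofReal_mul (p := 16 * D ^ (-β)) (by positivity),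
            ENNReal.ofReal_mul (p := (T.card : ℝ)) (by positivity), ENNReal.ofReal_natCast]
          ring
      _ ≤ _ := by
          refine mul_le_mul' (ENNReal.ofReal_le_ofReal ?_) le_rfl
          have h1 : (T.card : ℝ) ≤ CL * lam ^ (η / 2) := hTc.trans hL2
          have h2 : lam ^ η = lam ^ (η / 2) * lam ^ (η / 2) := by
            rw [← Real.rpow_add hlam0]; congr 1; ring
          calc 16 * D ^ (-β) * (C1 * (lam ^ η * bg * A ^ (p - 2))) +
              T.card * (2 * C2 * (lam ^ (η / 2) * D ^ (-β) * bg * A ^ (p - 2)))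
              ≤ 16 * D ^ (-β) * (C1 * (lam ^ η * bg * A ^ (p - 2))) +
              CL * lam ^ (η / 2) * (2 * C2 * (lam ^ (η / 2) * D ^ (-β) * bg * A ^ (p - 2))) := by
                gcongr
            _ = _ := by rw [h2]; ring
  refine total.trans (le_of_eq ?_)
  rw [ENNReal.ofReal_mul (by positivity)]
  rfl

end Pool.Agent.H47.BR
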